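import Pool.Agent.Helper93.PL.St2

/-!
# Project PL, module KA: properties of the limit law
-/

set_option autoImplicit false

namespace Pool.Agent.Helper7.PL

open Finset Filter Topology
open Pool.Agent.Helper61.PV Pool.Agent.Helper93.PL

private theorem exists_H (d N : ℕ) {c : ℝ} (hc : 0 < c) :
    ∃ H : ℕ, N ≤ H ∧ (d : ℝ) ≤ (H : ℝ) ^ c ∧ (d : ℝ) * Real.log H ≤ (H : ℝ) ^ (1 / 3 : ℝ) := by
  have h1 : ∀ᶠ H : ℕ in atTop, (d : ℝ) ≤ (H : ℝ) ^ c :=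
    ((tendsto_rpow_atTop hc).comp tendsto_natCast_atTop_atTop).eventually_ge_atTop _
  have hd : (0 : ℝ) < 1 / ((d : ℝ) + 1) := by positivity
  have h2 : ∀ᶠ x : ℝ in atTop, ‖Real.log x‖ ≤ 1 / ((d : ℝ) + 1) * ‖x ^ (1 / 3 : ℝ)‖ :=
    (isLittleO_log_rpow_atTop (by norm_num : (0 : ℝ) < 1 / 3)).bound hd
  have h3 : ∀ᶠ H : ℕ in atTop, ‖Real.log (H : ℝ)‖ ≤ 1 / ((d : ℝ) + 1) * ‖(H : ℝ) ^ (1 / 3 : ℝ)‖ :=
    tendsto_natCast_atTop_atTop.eventually h2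
  obtain ⟨H, hN, ha, hb⟩ := ((eventually_ge_atTop N).and (h1.and h3)).exists
  refine ⟨H, hN, ha, ?_⟩
  have h0 : (0 : ℝ) ≤ (H : ℝ) ^ (1 / 3 : ℝ) := by positivity
  rw [Real.norm_of_nonneg h0] at hb
  have h4 : Real.log (H : ℝ) ≤ 1 / ((d : ℝ) + 1) * (H : ℝ) ^ (1 / 3 : ℝ) :=
    (le_abs_self _).trans hb
  have h5 : (0 : ℝ) ≤ d := Nat.cast_nonneg d
  calc (d : ℝ) * Real.log H ≤ d * (1 / ((d : ℝ) + 1) * (H : ℝ) ^ (1 / 3 : ℝ)) :=
        mul_le_mul_of_nonneg_left h4 h5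
    _ = (d / ((d : ℝ) + 1)) * (H : ℝ) ^ (1 / 3 : ℝ) := by ring
    _ ≤ 1 * (H : ℝ) ^ (1 / 3 : ℝ) := by
        refine mul_le_mul_of_nonneg_right ?_ h0
        rw [div_le_one (by positivity)]
        linarith
    _ = _ := one_mul _

private theorem rat_le {d H : ℕ} {c' C ε : ℝ} (hε : 0 ≤ ε)
    (h : (Nat.card {c : Fin (d + 1) → ℤ // c ∈ Bxx d H ∧ NFD c ∧
      ¬ (Irreducible (pol c) ∧ ∃ m : ℕ, IsLeast {m : ℕ | 1 ≤ m ∧ (ev c m).toNat.Prime} m ∧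
        c' * Sz H d ≤ m ∧ (m : ℝ) ≤ C * Sz H d ∧ (m : ℝ) ≤ C * Len c)} : ℝ) ≤
      ε * Nat.card {c : Fin (d + 1) → ℤ // c ∈ Bxx d H ∧ NFD c}) : Rat d H 0 C ≤ ε := by
  unfold Pool.Agent.Helper93.PL.Rat
  have hcard : Nat.card {v : Fin (d + 1) → ℤ // v ∈ Bxx d H ∧ NFD v ∧ nP v 0 (C * Sz H d) = 0} ≤
      Nat.card {c : Fin (d + 1) → ℤ // c ∈ Bxx d H ∧ NFD c ∧
      ¬ (Irreducible (pol c) ∧ ∃ m : ℕ, IsLeast {m : ℕ | 1 ≤ m ∧ (ev c m).toNat.Prime} m ∧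
        c' * Sz H d ≤ m ∧ (m : ℝ) ≤ C * Sz H d ∧ (m : ℝ) ≤ C * Len c)} := by
    have hfin : Finite {c : Fin (d + 1) → ℤ // c ∈ Bxx d H ∧ NFD c ∧
      ¬ (Irreducible (pol c) ∧ ∃ m : ℕ, IsLeast {m : ℕ | 1 ≤ m ∧ (ev c m).toNat.Prime} m ∧
        c' * Sz H d ≤ m ∧ (m : ℝ) ≤ C * Sz H d ∧ (m : ℝ) ≤ C * Len c)} := by
      have : Set.Finite {c : Fin (d + 1) → ℤ | c ∈ Bxx d H ∧ NFD c ∧
        ¬ (Irreducible (pol c) ∧ ∃ m : ℕ, IsLeast {m : ℕ | 1 ≤ m ∧ (ev c m).toNat.Prime} m ∧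
          c' * Sz H d ≤ m ∧ (m : ℝ) ≤ C * Sz H d ∧ (m : ℝ) ≤ C * Len c)} :=
        (Bxx d H).finite_toSet.subset fun c hc => hc.1
      exact this.to_subtype
    refine Nat.card_le_card_of_injective (fun v => ⟨v.1, v.2.1, v.2.2.1, ?_⟩) ?_
    · rintro ⟨-, m, hm, -, hmC, -⟩
      have h0 := v.2.2.2
      unfold nP at h0
      rw [Finset.card_eq_zero, Finset.filter_eq_empty_iff] at h0
      have hm1 : 1 ≤ m := hm.1.1
      refine h0 (x := m) ?_ ⟨?_, hm.1.2⟩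
      · rw [Finset.mem_range, Nat.lt_succ_iff]
        exact Nat.le_floor hmC
      · exact_mod_cast hm1
    · intro v v' hv
      apply Subtype.ext
      exact congrArg (fun t => t.1) hv
  have hD : (0 : ℝ) ≤ Nat.card {c : Fin (d + 1) → ℤ // c ∈ Bxx d H ∧ NFD c} := Nat.cast_nonneg _
  rcases hD.eq_or_lt with h0 | h0
  · rw [← h0, div_zero]
    exact hε
  · rw [div_le_iff₀ h0]
    have : (Nat.card {v : Fin (d + 1) → ℤ // v ∈ Bxx d H ∧ NFD v ∧ nP v 0 (C * Sz H d) = 0} : ℝ) ≤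
      Nat.card {c : Fin (d + 1) → ℤ // c ∈ Bxx d H ∧ NFD c ∧
      ¬ (Irreducible (pol c) ∧ ∃ m : ℕ, IsLeast {m : ℕ | 1 ≤ m ∧ (ev c m).toNat.Prime} m ∧
        c' * Sz H d ≤ m ∧ (m : ℝ) ≤ C * Sz H d ∧ (m : ℝ) ≤ C * Len c)} := by exact_mod_cast hcard
    exact this.trans h

/-- MODULE KA. -/
theorem hKa (hFin : Pool.Agent.Helper93.PL.StFin) (hLwb : StLwb) (hPb : StPb) (hPc : StPc) (hPd : StPd)
    (hPv : Pool.Agent.Helper61.PV.StFin) : Pool.Agent.Helper93.PL.StKa := by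
  classical
  obtain ⟨-, b2, b3, b4, b5⟩ := hPb
  let L : ℕ → ℝ → ℝ := fun j x => if hx : 0 < x then Classical.choose (hFin j x hx) else 0
  have hL : ∀ (j : ℕ) (x : ℝ) (hx : 0 < x), L j x = Classical.choose (hFin j x hx) := by
    intro j x hx
    simp only [L, dif_pos hx]
  have hT : ∀ (j : ℕ) (x : ℝ), 0 < x → Tendsto (fun w => LawW w j x) atTop (𝓝 (L j x)) := by
    intro j x hx
    rw [hL j x hx]
    exact (Classical.choose_spec (hFin j x hx)).1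
  have hR : ∀ (j : ℕ) (x ε : ℝ), 0 < x → 0 < ε → ∃ (c : ℝ) (D₀ H₀ : ℕ), 0 < c ∧ ∀ d H : ℕ, D₀ ≤ d →
      H₀ ≤ H → (d : ℝ) ≤ (H : ℝ) ^ c → |Rat d H j x - L j x| ≤ ε := by
    intro j x ε hx hε
    rw [hL j x hx]
    exact (Classical.choose_spec (hFin j x hx)).2 ε hε
  have hnn : ∀ (j : ℕ) (x : ℝ), 0 < x → 0 ≤ L j x := fun j x hx =>
    ge_of_tendsto' (hT j x hx) fun w => (hLwb w j x hx.le).1
  have hanti : ∀ x y : ℝ, 0 < x → x ≤ y → L 0 y ≤ L 0 x := fun x y hx hxy =>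
    le_of_tendsto_of_tendsto' (hT 0 y (hx.trans_le hxy)) (hT 0 x hx) fun w => b4 w x y hx.le hxy
  have hlip : ∀ x y : ℝ, 0 < x → 0 < y → |L 0 x - L 0 y| ≤ 2 * |x - y| := fun x y hx hy =>
    le_of_tendsto' ((hT 0 x hx).sub (hT 0 y hy)).abs fun w => b2 w 0 x y hx.le hy.le
  have hone : ∀ x : ℝ, 0 < x → |L 0 x - 1| ≤ 2 * x := by
    intro x hx
    refine le_of_tendsto' ((hT 0 x hx).sub tendsto_const_nhds).abs fun w => ?_
    have h := b2 w 0 x 0 hx.le le_rfl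
    rwa [b3 w, sub_zero, abs_of_pos hx] at h
  have hpos : ∀ x : ℝ, 0 < x → 0 < L 0 x := by
    intro x hx
    have h : Real.exp (-(4 * x)) / 2 ≤ L 0 x := ge_of_tendsto' (hT 0 x hx) fun w => b5 w x hx.le
    exact lt_of_lt_of_le (by positivity) h
  -- small values
  have hsmall : ∀ ε : ℝ, 0 < ε → ∃ C : ℝ, 0 < C ∧ L 0 C ≤ ε := by
    intro ε hε
    obtain ⟨c', C, H₀, -, hC, hH⟩ := hPv (ε / 2) (by linarith)
    obtain ⟨c, D₀, H₁, hc, hr⟩ := hR 0 C (ε / 2) hC (by linarith)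
    obtain ⟨H, hHN, h1, h2⟩ := exists_H (max D₀ 1) (max H₀ H₁) hc
    have h3 := hH H ((le_max_left _ _).trans hHN) (max D₀ 1) (le_max_right _ _) h2
    have h4 := hr (max D₀ 1) H (le_max_left _ _) ((le_max_right _ _).trans hHN) h1
    have h5 : Rat (max D₀ 1) H 0 C ≤ ε / 2 := rat_le (by linarith) h3
    refine ⟨C, hC, ?_⟩
    have h6 := (abs_le.mp h4).1
    linarith
  have hlt : ∀ x : ℝ, 0 < x → L 0 x < 1 := by
    intro x hx
    obtain ⟨C, hC, hCL⟩ := hsmall (1 / 2) (by norm_num)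
    set X := max C x with hX
    have hX0 : 0 < X := lt_of_lt_of_le hC (le_max_left _ _)
    have hXL : L 0 X ≤ 1 / 2 := (hanti C X hC (le_max_left _ _)).trans hCL
    have hθ0 : 0 < x / X := div_pos hx hX0
    have hθ1 : x / X ≤ 1 := (div_le_one hX0).mpr (le_max_right _ _)
    have hxX : x / X * X = x := by
      field_simp
    have hlim : L 0 x ≤ L 0 X ^ (x / X) := by
      refine le_of_tendsto_of_tendsto' (hT 0 x hx) ((hT 0 X hX0).rpow_const (Or.inr hθ0.le)) fun w => ?_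
      have h := hPd w X (x / X) hX0.le hθ0 hθ1
      rwa [hxX] at h
    refine lt_of_le_of_lt hlim ?_
    calc L 0 X ^ (x / X) ≤ (1 / 2 : ℝ) ^ (x / X) := Real.rpow_le_rpow (hnn 0 X hX0) hXL hθ0.le
      _ < 1 := Real.rpow_lt_one (by norm_num) (by norm_num) hθ0
  refine ⟨L, hT, hR, ?_, hanti, hlip, ?_, ?_⟩
  · intro x hx
    refine ⟨hpos x hx, hlt x hx, fun j => hnn j x hx, ?_⟩
    rw [hasSum_iff_tendsto_nat_of_nonneg (fun j => hnn j x hx)]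
    have hS : ∀ J : ℕ, Tendsto (fun w => ∑ j ∈ range J, LawW w j x) atTop (𝓝 (∑ j ∈ range J, L j x)) :=
      fun J => tendsto_finsetSum _ fun j _ => hT j x hx
    have hlow : ∀ᶠ J : ℕ in atTop, 1 - 2 * x / (J : ℝ) ≤ ∑ j ∈ range J, L j x := by
      filter_upwards [eventually_ge_atTop 1] with J hJ
      exact ge_of_tendsto' (hS J) fun w => (hPc w J x hx.le hJ).1
    have hup : ∀ᶠ J : ℕ in atTop, ∑ j ∈ range J, L j x ≤ 1 := by
      filter_upwards [eventually_ge_atTop 1] with J hJ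
      exact le_of_tendsto' (hS J) fun w => (hPc w J x hx.le hJ).2
    have hl : Tendsto (fun J : ℕ => 1 - 2 * x / (J : ℝ)) atTop (𝓝 1) := by
      have h := (tendsto_const_div_atTop_nhds_zero_nat (2 * x)).const_sub 1
      simpa using h
    exact tendsto_of_tendsto_of_tendsto_of_le_of_le' hl tendsto_const_nhds hlow hup
  · rw [tendsto_iff_dist_tendsto_zero]
    have h0 : Tendsto (fun x : ℝ => 2 * x) (𝓝[>] 0) (𝓝 0) := by
      have h : Tendsto (fun x : ℝ => 2 * x) (𝓝 0) (𝓝 (2 * 0)) := (continuous_const_mul 2).tendsto 0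
      rw [mul_zero] at h
      exact h.mono_left nhdsWithin_le_nhds
    refine squeeze_zero' ?_ ?_ h0
    · exact Eventually.of_forall fun x => dist_nonneg
    · filter_upwards [self_mem_nhdsWithin] with x hx
      rw [Real.dist_eq]
      exact hone x hx
  · rw [tendsto_iff_dist_tendsto_zero]
    rw [Metric.tendsto_atTop]
    intro ε hε
    obtain ⟨C, hC, hCL⟩ := hsmall (ε / 2) (by linarith)
    refine ⟨C, fun x hx => ?_⟩
    have hx0 : 0 < x := hC.trans_le hx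
    have h1 := hanti C x hC hx
    have h2 := hnn 0 x hx0
    rw [Real.dist_eq, Real.dist_eq, sub_zero, sub_zero, abs_abs, abs_of_nonneg h2]
    linarith

end Pool.Agent.Helper7.PL
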